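import Mathlib
import Pool.Agent.Helper70.KN.Goals

/-! Packet VJ of project KN: the volume of the cylinders. -/

open MeasureTheory Set

namespace Pool.Agent.Helper78.KN.VJ

open Pool.Agent.Helper70.KN

theorem t : S_VJ := by
  intro N V J
  unfold W vol
  set S : Set ({x // x ∈ Jᶜ} → ℝ) := {y | extz Jᶜ y ∈ under V} with hS
  set B : Set ({x // ¬ x ∈ Jᶜ} → ℝ) := Set.pi Set.univ (fun _ => Set.Ico (0 : ℝ) 1) with hB
  have hmp := volume_preserving_piEquivPiSubtypeProd (fun _ : Fin N => ℝ) (fun i => i ∈ Jᶜ)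
  have hset : cyl V J = (MeasurableEquiv.piEquivPiSubtypeProd (fun _ : Fin N => ℝ)
      (fun i => i ∈ Jᶜ)) ⁻¹' (S ×ˢ B) := by
    ext x
    have hz : extz Jᶜ (fun i : {x // x ∈ Jᶜ} => x i) = zr J x := by
      funext i
      unfold extz zr
      by_cases hi : i ∈ J
      · simp [hi]
      · simp [hi]
    have he : (MeasurableEquiv.piEquivPiSubtypeProd (fun _ : Fin N => ℝ) (fun i => i ∈ Jᶜ)) x
        = ((fun i : {x // x ∈ Jᶜ} => x i), (fun i : {x // ¬ x ∈ Jᶜ} => x i)) := rfl
    rw [Set.mem_preimage, he, Set.mem_prod]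
    simp only [hS, hB, Set.mem_setOf_eq, hz, cyl, under, Set.mem_pi, Set.mem_univ, true_imp_iff,
      Set.mem_Ico]
    constructor
    · rintro ⟨h1, h2, h3⟩
      refine ⟨⟨?_, h3⟩, ?_⟩
      · intro i
        unfold zr
        by_cases hi : i ∈ J
        · simp [hi]
        · simpa [hi] using h1 i
      · rintro ⟨i, hi⟩
        have hi' : i ∈ J := by simpa using hi
        exact ⟨h1 i, h2 i hi'⟩
    · rintro ⟨⟨h1, h3⟩, h2⟩
      refine ⟨?_, ?_, h3⟩
      · intro i
        by_cases hi : i ∈ J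
        · exact (h2 ⟨i, by simpa using hi⟩).1
        · have := h1 i
          unfold zr at this
          simpa [hi] using this
      · intro j hj
        exact (h2 ⟨j, by simpa using hj⟩).2
  have hvB : volume B = 1 := by
    rw [hB, volume_pi_pi]
    simp
  rw [hset, hmp.measure_preimage_equiv, Measure.volume_eq_prod, Measure.prod_prod, hvB, mul_one]
  have hI : (Subtype.fintype (fun i => i ∈ Jᶜ) : Fintype {x // x ∈ Jᶜ}) = Finset.Subtype.fintype Jᶜ :=
    Subsingleton.elim _ _
  rw [hI]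

end Pool.Agent.Helper78.KN.VJ
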